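import Pool.Agent.V8H47.VC.Sum

/-! Hermite's constant and the number of half-spaces cutting out the Voronoi cell
(for MP_ef2672_gt). -/

open Matrix MeasureTheory Metric Filter
open scoped Topology

namespace Pool.Agent.V8H47.VC

open Pool.Agent.H160R3.Herm Pool.Agent.TH220.HG

theorem tendsto_six : Tendsto (fun n : ℕ => (6 * n : ℝ) ^ ((2 : ℝ) / n)) atTop (𝓝 1) := by
  have h1 : Tendsto (fun n : ℕ => Real.exp ((2 : ℝ) / n * Real.log (6 * n))) atTop
      (𝓝 (Real.exp 0)) := by
    apply Tendsto.rexp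
    have h2 : Tendsto (fun x : ℝ => Real.log x / x) atTop (𝓝 0) := by
      have := Real.isLittleO_log_id_atTop.tendsto_div_nhds_zero
      simpa using this
    have h3 : Tendsto (fun n : ℕ => (6 * n : ℝ)) atTop atTop :=
      Tendsto.const_mul_atTop (by norm_num) tendsto_natCast_atTop_atTop
    have h4 := (h2.comp h3).const_mul 12
    rw [mul_zero] at h4
    refine h4.congr' ?_
    filter_upwards [eventually_gt_atTop 0] with n hn
    have hn' : (0 : ℝ) < n := by exact_mod_cast hn
    simp only [Function.comp]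
    field_simp
    ring
  rw [Real.exp_zero] at h1
  refine h1.congr' ?_
  filter_upwards [eventually_gt_atTop 0] with n hn
  have hn' : (0 : ℝ) < n := by exact_mod_cast hn
  rw [Real.rpow_def_of_pos (by positivity), mul_comm]

open Classical in
/-- asymptotic bound: the factor `b`, with some room in the count -/
theorem asym {b ε : ℝ} (hb : 1 < b) (hε : 0 < ε) : ∃ δ : ℝ, 0 < δ ∧ ∀ᶠ n : ℕ in atTop,
    ∀ A : Matrix (Fin n) (Fin n) ℝ, A.det ≠ 0 → ∀ S : Finset (Fin n → ℤ), Cuts A S →
    ((S.filter fun v => nsq A v < b / (b - 1) * minSq A).card : ℝ) ≤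
      b ^ ((n : ℝ) / 2) * Real.exp (δ * n) →
    gam A / n ≤ 2 * (1 - 1 / b) / (Real.pi * Real.exp 1) + ε := by
  have hb1 : 0 < b - 1 := by linarith
  -- choose `c > b` close to `b`
  have hcont : Tendsto (fun c : ℝ => 2 * (1 - 1 / c) / (Real.pi * Real.exp 1)) (𝓝[>] b)
      (𝓝 (2 * (1 - 1 / b) / (Real.pi * Real.exp 1))) := by
    apply Tendsto.mono_left _ nhdsWithin_le_nhds
    apply ContinuousAt.tendsto
    have : b ≠ 0 := by linarith
    fun_prop (disch := assumption)
  have hev := hcont.eventually_lt_const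
    (show 2 * (1 - 1 / b) / (Real.pi * Real.exp 1) <
      2 * (1 - 1 / b) / (Real.pi * Real.exp 1) + ε by linarith)
  obtain ⟨c, hc1, hc2⟩ := (hev.and self_mem_nhdsWithin).exists
  have hc0 : 0 < c := by linarith
  set t : ℝ := c / (4 * (c - 1)) with ht
  have hc3 : 0 < c - 1 := by linarith
  have ht4 : 1 / 4 ≤ t := by
    rw [ht, div_le_div_iff₀ (by norm_num) (by positivity)]; linarith
  have ht1 : 1 - 1 / (4 * t) = 1 / c := by
    rw [ht]; field_simp; ring
  have ht2 : 4 * t ≤ b / (b - 1) := by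
    rw [ht, le_div_iff₀ hb1]
    have : 4 * (c / (4 * (c - 1))) * (b - 1) = c * (b - 1) / (c - 1) := by field_simp
    rw [this, div_le_iff₀ hc3]
    nlinarith
  set δ : ℝ := (Real.log c - Real.log b) / 4 with hδ
  have hlog : Real.log b < Real.log c := Real.log_lt_log (by linarith) hc2
  have hδ0 : 0 < δ := by rw [hδ]; linarith
  refine ⟨δ, hδ0, ?_⟩
  have hlim : Tendsto (fun n : ℕ => (6 * n : ℝ) ^ ((2 : ℝ) / n) *
      (2 * (1 - 1 / c) / (Real.pi * Real.exp 1))) atTop
      (𝓝 (1 * (2 * (1 - 1 / c) / (Real.pi * Real.exp 1)))) :=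
    tendsto_six.mul tendsto_const_nhds
  rw [one_mul] at hlim
  have hev2 := hlim.eventually_lt_const hc1
  have hev3 : ∀ᶠ n : ℕ in atTop, Real.log 2 ≤ δ * n := by
    have : Tendsto (fun n : ℕ => δ * (n : ℝ)) atTop atTop :=
      Tendsto.const_mul_atTop hδ0 tendsto_natCast_atTop_atTop
    exact this.eventually_ge_atTop _
  filter_upwards [hev2, hev3, eventually_gt_atTop 0] with n h2 h3 hn A hA S hS hN
  have hn' : (0 : ℝ) < n := by exact_mod_cast hn
  have hm := minSq_pos hn hA
  have hcard : ((S.filter fun v => nsq A v < 4 * t * minSq A).card : ℝ) ≤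
      b ^ ((n : ℝ) / 2) * Real.exp (δ * n) := by
    refine le_trans ?_ hN
    have : (S.filter fun v => nsq A v < 4 * t * minSq A) ⊆
        (S.filter fun v => nsq A v < b / (b - 1) * minSq A) := by
      intro v hv
      rw [Finset.mem_filter] at hv ⊢
      exact ⟨hv.1, hv.2.trans_le (mul_le_mul_of_nonneg_right ht2 hm.le)⟩
    exact_mod_cast Finset.card_le_card this
  have key : 2 * ((S.filter fun v => nsq A v < 4 * t * minSq A).card : ℝ) *
      (1 - 1 / (4 * t)) ^ ((n : ℝ) / 2) ≤ 1 := by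
    rw [ht1]
    have e1 : (1 / c) ^ ((n : ℝ) / 2) = Real.exp (-(Real.log c * ((n : ℝ) / 2))) := by
      rw [Real.rpow_def_of_pos (by positivity), one_div, Real.log_inv]
      congr 1; ring
    have e2 : b ^ ((n : ℝ) / 2) = Real.exp (Real.log b * ((n : ℝ) / 2)) :=
      Real.rpow_def_of_pos (by linarith) _
    calc 2 * ((S.filter fun v => nsq A v < 4 * t * minSq A).card : ℝ) * (1 / c) ^ ((n : ℝ) / 2)
        ≤ 2 * (b ^ ((n : ℝ) / 2) * Real.exp (δ * n)) * (1 / c) ^ ((n : ℝ) / 2) := by gcongr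
      _ = Real.exp (Real.log 2 + (Real.log b * ((n : ℝ) / 2) + δ * n) +
            -(Real.log c * ((n : ℝ) / 2))) := by
          rw [Real.exp_add, Real.exp_add, Real.exp_add, Real.exp_log (by norm_num), e1, e2]
      _ ≤ Real.exp 0 := by
          apply Real.exp_le_exp.2
          have : δ * n = (Real.log c - Real.log b) / 4 * n := by rw [hδ]
          linarith
      _ = 1 := Real.exp_zero
  have hmain := gam_bound hn hA hS ht4 key
  refine hmain.trans (le_trans (le_of_eq ?_) h2.le)
  rw [ht]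
  field_simp
  ring

theorem faces_pos {n : ℕ} (hn : 0 < n) {A : Matrix (Fin n) (Fin n) ℝ} (hA : A.det ≠ 0) :
    1 ≤ faces A := by
  classical
  obtain ⟨S, hS, h1⟩ := faces_spec hA
  by_contra h
  have h0 : faces A = 0 := by omega
  rw [h0, Finset.card_eq_zero] at h1
  subst h1
  have hn' : (0 : ℝ) < n := by exact_mod_cast hn
  have hm := minSq_pos hn hA
  have hg : 0 < gam A := div_pos hm (Real.rpow_pos_of_pos (abs_pos.2 hA) _)
  have h2 : ∀ t : ℝ, 1 / 4 ≤ t → gam A / n * t ≤ (6 * n) ^ ((2 : ℝ) / n) := by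
    intro t ht
    have := gam_bound hn hA hS ht (by simp)
    have ht0 : 0 < t := by linarith
    rw [le_div_iff₀ (by positivity)] at this
    refine le_trans ?_ this
    have hpe : 1 ≤ 2 * Real.pi * Real.exp 1 := by
      have := Real.pi_gt_three
      have := Real.exp_one_gt_d9
      nlinarith
    have hgt : 0 < gam A / n * t := by positivity
    nlinarith
  have h3 := h2 (max (1 / 4) (((6 * n) ^ ((2 : ℝ) / n) + 1) / (gam A / n))) (le_max_left _ _)
  have h4 : gam A / n * (((6 * n) ^ ((2 : ℝ) / n) + 1) / (gam A / n)) ≤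
      gam A / n * max (1 / 4) (((6 * n) ^ ((2 : ℝ) / n) + 1) / (gam A / n)) := by
    gcongr
    exact le_max_right _ _
  rw [mul_div_cancel₀ _ (by positivity)] at h4
  linarith

theorem six_le {n : ℕ} (hn : 0 < n) : (6 * n : ℝ) ^ ((2 : ℝ) / n) ≤ 36 := by
  have hn' : (0 : ℝ) < n := by exact_mod_cast hn
  have h1 : (6 * n : ℝ) ≤ 6 ^ n := by
    obtain ⟨k, rfl⟩ : ∃ k, n = k + 1 := ⟨n - 1, by omega⟩
    clear hn hn'
    induction k with
    | zero => norm_num
    | succ k ih =>
      rw [pow_succ]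
      push_cast at ih ⊢
      have : (0 : ℝ) ≤ k := by positivity
      nlinarith
  calc (6 * n : ℝ) ^ ((2 : ℝ) / n) ≤ ((6 : ℝ) ^ n) ^ ((2 : ℝ) / n) :=
        Real.rpow_le_rpow (by positivity) h1 (by positivity)
    _ = 36 := by
        rw [← Real.rpow_natCast, ← Real.rpow_mul (by norm_num)]
        have : (n : ℝ) * (2 / n) = 2 := by field_simp
        rw [this]; norm_num

theorem gam_le_log {n : ℕ} (hn : 0 < n) {A : Matrix (Fin n) (Fin n) ℝ} (hA : A.det ≠ 0) :
    gam A ≤ 17 * Real.log (2 * faces A) := by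
  classical
  have hn' : (0 : ℝ) < n := by exact_mod_cast hn
  obtain ⟨S, hS, h1⟩ := faces_spec hA
  have hN : (1 : ℝ) ≤ faces A := by exact_mod_cast faces_pos hn hA
  set l : ℝ := Real.log (2 * faces A) with hl
  have hl0 : 0 < l := Real.log_pos (by linarith)
  by_cases hcase : (n : ℝ) < 2 * l
  · have h2 : gam A ≤ n := (le_hermite hn A hA).trans (hermite_le hn)
    linarith
  · push Not at hcase
    set t : ℝ := n / (8 * l) with ht
    have ht4 : 1 / 4 ≤ t := by
      rw [ht, div_le_div_iff₀ (by norm_num) (by positivity)]; linarith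
    have ht0 : 0 < t := by linarith
    have key : 2 * ((S.filter fun v => nsq A v < 4 * t * minSq A).card : ℝ) *
        (1 - 1 / (4 * t)) ^ ((n : ℝ) / 2) ≤ 1 := by
      have hcard : ((S.filter fun v => nsq A v < 4 * t * minSq A).card : ℝ) ≤ faces A := by
        rw [← h1]
        exact_mod_cast Finset.card_filter_le _ _
      have hbase : 0 ≤ 1 - 1 / (4 * t) := by
        rw [sub_nonneg, div_le_one (by positivity)]; linarith
      have e1 : (1 - 1 / (4 * t)) ^ ((n : ℝ) / 2) ≤ Real.exp (-l) := by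
        have h3 : 1 - 1 / (4 * t) ≤ Real.exp (-(1 / (4 * t))) := by
          have := Real.add_one_le_exp (-(1 / (4 * t)))
          linarith
        refine (Real.rpow_le_rpow hbase h3 (by positivity)).trans (le_of_eq ?_)
        rw [← Real.exp_mul]
        congr 1
        rw [ht]; field_simp
        norm_num
      have e2 : Real.exp (-l) = 1 / (2 * faces A) := by
        rw [Real.exp_neg, hl, Real.exp_log (by linarith), one_div]
      rw [e2] at e1
      calc 2 * ((S.filter fun v => nsq A v < 4 * t * minSq A).card : ℝ) *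
            (1 - 1 / (4 * t)) ^ ((n : ℝ) / 2) ≤ 2 * faces A * (1 / (2 * faces A)) := by
            gcongr
        _ = 1 := by field_simp
    have h2 := gam_bound hn hA hS ht4 key
    rw [div_le_iff₀ hn'] at h2
    refine h2.trans ?_
    have h6 := six_le hn
    have hpe : (17 / 2 : ℝ) ≤ Real.pi * Real.exp 1 := by
      have := Real.pi_gt_d2
      have := Real.exp_one_gt_d9
      nlinarith
    have e3 : (6 * n : ℝ) ^ ((2 : ℝ) / n) / (2 * Real.pi * Real.exp 1 * t) * n =
        (6 * n : ℝ) ^ ((2 : ℝ) / n) * (4 * l / (Real.pi * Real.exp 1)) := by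
      rw [ht]; field_simp; ring
    rw [e3]
    calc (6 * n : ℝ) ^ ((2 : ℝ) / n) * (4 * l / (Real.pi * Real.exp 1))
        ≤ 36 * (4 * l / (17 / 2)) := by gcongr
      _ ≤ 17 * l := by
          have : (36 : ℝ) * (4 * l / (17 / 2)) = 288 / 17 * l := by ring
          rw [this]; nlinarith

theorem exists_large {k m : ℕ} (hk : 0 < k) (hm : 0 < m) :
    ∃ A : Matrix (Fin (m * k)) (Fin (m * k)) ℝ, A.det ≠ 0 ∧ faces A ≤ m * 2 ^ (k + 1) ∧
      (k : ℝ) / 145 ≤ gam A ∧ (m ≤ 2 ^ k → Real.log (faces A) ≤ 302 * gam A) := by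
  have hk' : (0 : ℝ) < k := by exact_mod_cast hk
  have h1 : (k : ℝ) / 145 < hermite k := by
    have := hermite_ge hk
    have h2 : (k : ℝ) / 145 < k / 144 := by
      apply div_lt_div_of_pos_left hk' (by norm_num) (by norm_num)
    linarith
  obtain ⟨B, hB, h2⟩ := exists_lt_value h1
  obtain ⟨A, hA, h3, h4⟩ := gam_copies hk hB hm
  have h5 : faces A ≤ m * 2 ^ (k + 1) :=
    h4.trans (Nat.mul_le_mul_left m (faces_le_two_pow hB))
  have h6 : (k : ℝ) / 145 ≤ gam A := h2.le.trans h3
  refine ⟨A, hA, h5, h6, fun hm2 => ?_⟩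
  have hpos : (1 : ℝ) ≤ faces A := by exact_mod_cast faces_pos (by positivity) hA
  have h7 : (faces A : ℝ) ≤ 2 ^ (2 * k + 1) := by
    have : faces A ≤ 2 ^ k * 2 ^ (k + 1) := h5.trans (Nat.mul_le_mul_right _ hm2)
    rw [← pow_add] at this
    have e : k + (k + 1) = 2 * k + 1 := by ring
    rw [e] at this
    exact_mod_cast this
  have h8 : Real.log (faces A) ≤ (2 * k + 1) * Real.log 2 := by
    have := Real.log_le_log (by linarith) h7
    rwa [Real.log_pow, Nat.cast_add, Nat.cast_mul, Nat.cast_one, Nat.cast_ofNat] at this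
  have h9 : Real.log 2 < 0.6931471808 := Real.log_two_lt_d9
  have hk1 : (1 : ℝ) ≤ k := by exact_mod_cast hk
  have hl2 : 0 < Real.log 2 := Real.log_pos (by norm_num)
  have h10 : (2 * k + 1) * Real.log 2 ≤ 2.0795 * k := by nlinarith
  have h11 : (302 : ℝ) * (k / 145) ≤ 302 * gam A := by linarith
  have h12 : (2.0795 : ℝ) * k ≤ 302 * (k / 145) := by linarith
  linarith

end Pool.Agent.V8H47.VC
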