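import Pool.Agent.V8H47.VC.Pack

/-! The volume of the ball and the half-spaces cutting out the Voronoi cell (for MP_ef2672_gt). -/

open Matrix MeasureTheory Metric

namespace Pool.Agent.V8H47.VC

open Pool.Agent.H160R3.Herm Pool.Agent.TH220.HG

/-- the volume of the ball whose squared radius is `t` times the minimum of `L = A ℤⁿ`, divided by
the covolume of `L` -/
noncomputable def ballVol {n : ℕ} (A : Matrix (Fin n) (Fin n) ℝ) (t : ℝ) : ℝ :=
  (volume (Metric.ball (0 : EuclideanSpace ℝ (Fin n)) (√(t * minSq A)))).toReal / |A.det|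

/-- a cap of a ball is contained in a smaller ball -/
theorem cap_subset {E : Type*} [NormedAddCommGroup E] [InnerProductSpace ℝ E] {x v : E} {r : ℝ}
    (hx : ‖x‖ < r) (hc : ¬ ‖x‖ < ‖x - v‖) :
    x ∈ ball ((1 / 2 : ℝ) • v) (√(r ^ 2 - ‖v‖ ^ 2 / 4)) := by
  rw [near_iff, not_lt] at hc
  rw [mem_ball, dist_eq_norm]
  apply Real.lt_sqrt_of_sq_lt
  rw [norm_sub_sq_real, inner_smul_right, norm_smul, Real.norm_eq_abs, abs_of_pos (by norm_num)]
  have h4 : ‖x‖ ^ 2 < r ^ 2 := by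
    have := norm_nonneg x
    nlinarith
  nlinarith

theorem short_of_near {E : Type*} [NormedAddCommGroup E] [InnerProductSpace ℝ E] {x v : E} {r : ℝ}
    (hv : 0 < ‖v‖) (hx : ‖x‖ < r) (hc : ¬ ‖x‖ < ‖x - v‖) : ‖v‖ < 2 * r := by
  rw [near_iff, not_lt] at hc
  have h1 := real_inner_le_norm x v
  have h2 : ‖v‖ * ‖v‖ ≤ 2 * ‖x‖ * ‖v‖ := by nlinarith
  have h3 : ‖v‖ ≤ 2 * ‖x‖ := le_of_mul_le_mul_right h2 hv
  linarith

theorem vol_ball_scale {n : ℕ} (hn : 0 < n) (x : EuclideanSpace ℝ (Fin n)) {r : ℝ} (hr : 0 ≤ r) :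
    (volume (ball x r)).toReal = r ^ n * (volume (ball (0 : EuclideanSpace ℝ (Fin n)) 1)).toReal := by
  have : Nonempty (Fin n) := ⟨⟨0, hn⟩⟩
  have : Nontrivial (EuclideanSpace ℝ (Fin n)) := by
    apply Module.nontrivial_of_finrank_pos (R := ℝ)
    rw [finrank_euclideanSpace_fin]; exact hn
  rw [Measure.addHaar_ball volume x hr, ENNReal.toReal_mul, finrank_euclideanSpace_fin,
    ENNReal.toReal_ofReal (by positivity)]

open Classical in
/-- the main inequality -/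
theorem cut_general {n : ℕ} (hn : 0 < n) {A : Matrix (Fin n) (Fin n) ℝ} (hA : A.det ≠ 0)
    {S : Finset (Fin n → ℤ)} (hS : Cuts A S) {r : ℝ} (hr : 0 < r) :
    (volume (ball (0 : EuclideanSpace ℝ (Fin n)) r)).toReal *
      (1 - ∑ v ∈ S with nsq A v < 4 * r ^ 2, (1 - nsq A v / (4 * r ^ 2)) ^ ((n : ℝ) / 2)) ≤
      |A.det| := by
  set T : Finset (Fin n → ℤ) := S.filter (fun v => nsq A v < 4 * r ^ 2) with hT
  set β : ℝ := (volume (ball (0 : EuclideanSpace ℝ (Fin n)) 1)).toReal with hβ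
  have hcov : ball (0 : EuclideanSpace ℝ (Fin n)) r ⊆
      cell A ∪ ⋃ v ∈ T, ball ((1 / 2 : ℝ) • vec A v) (√(r ^ 2 - ‖vec A v‖ ^ 2 / 4)) := by
    intro x hx
    have hx' : ‖x‖ < r := by simpa using hx
    by_cases hc : x ∈ cell A
    · exact Or.inl hc
    · right
      have h1 : ¬ ∀ v ∈ S, ‖x‖ < ‖x - vec A v‖ := fun h' => hc (hS.2 x h')
      push Not at h1
      obtain ⟨v, hv, h2⟩ := h1
      have hv0 : v ≠ 0 := fun h0 => hS.1 (h0 ▸ hv)
      have hpos : 0 < ‖vec A v‖ := by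
        have := nsq_pos hA hv0
        rw [← norm_vec] at this
        exact lt_of_le_of_ne (norm_nonneg _) fun h => by rw [← h] at this; norm_num at this
      have h3 := short_of_near hpos hx' (not_lt.2 h2)
      refine Set.mem_iUnion₂.2 ⟨v, ?_, cap_subset hx' (not_lt.2 h2)⟩
      rw [hT, Finset.mem_filter]
      refine ⟨hv, ?_⟩
      rw [← norm_vec]
      nlinarith
  have hvol : volume (ball (0 : EuclideanSpace ℝ (Fin n)) r) ≤
      ENNReal.ofReal |A.det| +
        ∑ v ∈ T, volume (ball ((1 / 2 : ℝ) • vec A v) (√(r ^ 2 - ‖vec A v‖ ^ 2 / 4))) := by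
    refine (measure_mono hcov).trans ((measure_union_le _ _).trans ?_)
    gcongr
    · exact volume_cell_le hn hA
    · exact measure_biUnion_finset_le _ _
  have hreal : r ^ n * β ≤ |A.det| +
      ∑ v ∈ T, r ^ n * β * (1 - nsq A v / (4 * r ^ 2)) ^ ((n : ℝ) / 2) := by
    have hfin : ∀ (x : EuclideanSpace ℝ (Fin n)) (s : ℝ), volume (ball x s) ≠ ⊤ :=
      fun x s => measure_ball_lt_top.ne
    have hsum : (∑ v ∈ T, volume (ball ((1 / 2 : ℝ) • vec A v)
        (√(r ^ 2 - ‖vec A v‖ ^ 2 / 4)))) ≠ ⊤ :=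
      ENNReal.sum_ne_top.2 fun v _ => hfin _ _
    have h1 := ENNReal.toReal_mono (by
      exact ENNReal.add_ne_top.2 ⟨ENNReal.ofReal_ne_top, hsum⟩) hvol
    rw [ENNReal.toReal_add ENNReal.ofReal_ne_top hsum, ENNReal.toReal_ofReal (abs_nonneg _),
      ENNReal.toReal_sum (fun v _ => hfin _ _), vol_ball_scale hn _ hr.le] at h1
    refine h1.trans (le_of_eq ?_)
    congr 1
    refine Finset.sum_congr rfl fun v hv => ?_
    have hvT : nsq A v < 4 * r ^ 2 := (Finset.mem_filter.1 hv).2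
    have hbase : 0 ≤ 1 - nsq A v / (4 * r ^ 2) := by
      rw [sub_nonneg, div_le_one (by positivity)]; exact hvT.le
    rw [vol_ball_scale hn _ (Real.sqrt_nonneg _), norm_vec]
    have e1 : r ^ 2 - nsq A v / 4 = r ^ 2 * (1 - nsq A v / (4 * r ^ 2)) := by
      field_simp
    rw [e1, Real.sqrt_mul (by positivity), Real.sqrt_sq hr.le, mul_pow]
    have e2 : √(1 - nsq A v / (4 * r ^ 2)) ^ n = (1 - nsq A v / (4 * r ^ 2)) ^ ((n : ℝ) / 2) := by
      rw [Real.sqrt_eq_rpow, ← Real.rpow_natCast, ← Real.rpow_mul hbase]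
      congr 1
      ring
    rw [e2, hβ]
    ring
  rw [vol_ball_scale hn _ hr.le]
  rw [← Finset.mul_sum] at hreal
  linarith

open Classical in
/-- the main inequality in terms of the minimum -/
theorem cut_bound {n : ℕ} (hn : 0 < n) {A : Matrix (Fin n) (Fin n) ℝ} (hA : A.det ≠ 0)
    {S : Finset (Fin n → ℤ)} (hS : Cuts A S) {t : ℝ} (ht : 1 / 4 ≤ t) :
    ballVol A t * (1 - (S.filter fun v => nsq A v < 4 * t * minSq A).card *
      (1 - 1 / (4 * t)) ^ ((n : ℝ) / 2)) ≤ 1 := by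
  have hm := minSq_pos hn hA
  have ht0 : 0 < t := by linarith
  set r : ℝ := √(t * minSq A) with hr
  have hr0 : 0 < r := Real.sqrt_pos.2 (by positivity)
  have hr2 : r ^ 2 = t * minSq A := Real.sq_sqrt (by positivity)
  have h1 := cut_general hn hA hS hr0
  have hd : 0 < |A.det| := abs_pos.2 hA
  rw [ballVol, div_mul_eq_mul_div, div_le_one hd]
  refine le_trans ?_ h1
  apply mul_le_mul_of_nonneg_left _ ENNReal.toReal_nonneg
  apply sub_le_sub_left
  have e : (4 : ℝ) * r ^ 2 = 4 * t * minSq A := by rw [hr2]; ring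
  rw [e, ← nsmul_eq_mul]
  refine Finset.sum_le_card_nsmul _ _ _ fun v hv => ?_
  have hvT : nsq A v < 4 * t * minSq A := (Finset.mem_filter.1 hv).2
  have hv0 : v ≠ 0 := fun h0 => hS.1 (h0 ▸ (Finset.mem_filter.1 hv).1)
  have h3 : minSq A ≤ nsq A v := minSq_le A v hv0
  apply Real.rpow_le_rpow
  · rw [sub_nonneg, div_le_one (by positivity)]; exact hvT.le
  · apply sub_le_sub_left
    rw [div_le_div_iff₀ (by positivity) (by positivity)]
    nlinarith
  · positivity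

theorem gam_rpow {n : ℕ} (hn : 0 < n) {A : Matrix (Fin n) (Fin n) ℝ} (hA : A.det ≠ 0) {c t : ℝ}
    (hc : 0 ≤ c) (ht : 0 ≤ t) :
    (√(c / n) * √(t * minSq A)) ^ n / |A.det| = (c * (t * gam A / n)) ^ ((n : ℝ) / 2) := by
  have hn' : (0 : ℝ) < n := by exact_mod_cast hn
  have hd : 0 < |A.det| := abs_pos.2 hA
  have hm := minSq_nonneg A
  rw [← Real.sqrt_mul (by positivity), Real.sqrt_eq_rpow, ← Real.rpow_natCast,
    ← Real.rpow_mul (by positivity)]
  have e1 : c * (t * gam A / n) = (c / n * (t * minSq A)) / |A.det| ^ ((2 : ℝ) / n) := by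
    rw [gam]; field_simp
  have e3 : (1 : ℝ) / 2 * n = n / 2 := by ring
  rw [e1, Real.div_rpow (by positivity) (by positivity), ← Real.rpow_mul hd.le, e3]
  have e2 : (2 : ℝ) / n * (n / 2) = 1 := by field_simp
  rw [e2, Real.rpow_one]

theorem le_ballVol {n : ℕ} (hn : 0 < n) {A : Matrix (Fin n) (Fin n) ℝ} (hA : A.det ≠ 0) {t : ℝ}
    (ht : 0 ≤ t) :
    (2 * Real.pi * Real.exp 1 * (t * gam A / n)) ^ ((n : ℝ) / 2) ≤ 3 * n * ballVol A t := by
  have hn' : (0 : ℝ) < n := by exact_mod_cast hn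
  rw [← gam_rpow hn hA (by positivity) ht, ballVol, mul_div_assoc']
  apply div_le_div_of_nonneg_right _ (abs_nonneg _)
  have h1 := Pool.Agent.H390R2.LP.volume_ball_ge n hn 0 (√(t * minSq A)) (Real.sqrt_nonneg _)
  have hfin : volume (Metric.ball (0 : EuclideanSpace ℝ (Fin n)) (√(t * minSq A))) ≠ ⊤ :=
    measure_ball_lt_top.ne
  have h2 := (ENNReal.ofReal_le_iff_le_toReal hfin).1 h1
  rw [div_le_iff₀ (by positivity)] at h2
  linarith

open Classical in
/-- the bound for the normalised minimum -/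
theorem gam_bound {n : ℕ} (hn : 0 < n) {A : Matrix (Fin n) (Fin n) ℝ} (hA : A.det ≠ 0)
    {S : Finset (Fin n → ℤ)} (hS : Cuts A S) {t : ℝ} (ht : 1 / 4 ≤ t)
    (hN : 2 * (S.filter fun v => nsq A v < 4 * t * minSq A).card *
      (1 - 1 / (4 * t)) ^ ((n : ℝ) / 2) ≤ 1) :
    gam A / n ≤ (6 * n) ^ ((2 : ℝ) / n) / (2 * Real.pi * Real.exp 1 * t) := by
  have hn' : (0 : ℝ) < n := by exact_mod_cast hn
  have ht0 : 0 < t := by linarith
  have hg : 0 ≤ gam A := div_nonneg (minSq_nonneg A) (by positivity)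
  have h1 := cut_bound hn hA hS ht
  have hb0 : 0 ≤ ballVol A t := div_nonneg ENNReal.toReal_nonneg (abs_nonneg _)
  have h2 : ballVol A t ≤ 2 := by nlinarith
  have h3 : (2 * Real.pi * Real.exp 1 * (t * gam A / n)) ^ ((n : ℝ) / 2) ≤ 6 * n := by
    refine (le_ballVol hn hA ht0.le).trans ?_
    nlinarith
  have h4 : 2 * Real.pi * Real.exp 1 * (t * gam A / n) ≤ (6 * n) ^ ((2 : ℝ) / n) := by
    have h5 := Real.rpow_le_rpow (by positivity) h3 (by positivity : (0 : ℝ) ≤ 2 / n)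
    rw [← Real.rpow_mul (by positivity)] at h5
    have e2 : (n : ℝ) / 2 * (2 / n) = 1 := by field_simp
    rwa [e2, Real.rpow_one] at h5
  rw [le_div_iff₀ (by positivity)]
  calc gam A / n * (2 * Real.pi * Real.exp 1 * t) = 2 * Real.pi * Real.exp 1 * (t * gam A / n) := by
        ring
    _ ≤ _ := h4

end Pool.Agent.V8H47.VC
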