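import Pool.Agent.TH220.HG.Sub
import Pool.Agent.H390R2.LP.Hermite

/-! Open Voronoi cells of lattices and the half-spaces which cut them out (for MP_ef2672_gt). -/

open Matrix MeasureTheory

namespace Pool.Agent.V8H47.VC

open Pool.Agent.H160R3.Herm Pool.Agent.TH220.HG

/-- the vector `A w` of the lattice `A ℤⁿ` -/
noncomputable def vec {n : ℕ} (A : Matrix (Fin n) (Fin n) ℝ) (w : Fin n → ℤ) :
    EuclideanSpace ℝ (Fin n) :=
  WithLp.toLp 2 (A.mulVec fun j => (w j : ℝ))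

/-- the open Voronoi cell of the lattice `A ℤⁿ`: the points nearer to `0` than to every other
lattice point -/
def cell {n : ℕ} (A : Matrix (Fin n) (Fin n) ℝ) : Set (EuclideanSpace ℝ (Fin n)) :=
  {x | ∀ w : Fin n → ℤ, w ≠ 0 → ‖x‖ < ‖x - vec A w‖}

/-- the half-spaces of the points nearer to `0` than to `A v`, for `v` in the finite set `S` of
nonzero vectors, cut out the open Voronoi cell -/
def Cuts {n : ℕ} (A : Matrix (Fin n) (Fin n) ℝ) (S : Finset (Fin n → ℤ)) : Prop :=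
  0 ∉ S ∧ ∀ x : EuclideanSpace ℝ (Fin n), (∀ v ∈ S, ‖x‖ < ‖x - vec A v‖) → x ∈ cell A

/-- the least number of half-spaces cutting out the open Voronoi cell -/
noncomputable def faces {n : ℕ} (A : Matrix (Fin n) (Fin n) ℝ) : ℕ :=
  sInf {k | ∃ S : Finset (Fin n → ℤ), Cuts A S ∧ S.card = k}

theorem vec_sub {n : ℕ} (A : Matrix (Fin n) (Fin n) ℝ) (v w : Fin n → ℤ) :
    vec A (v - w) = vec A v - vec A w := by
  have h : (fun j => ((v - w) j : ℝ)) = (fun j => (v j : ℝ)) - (fun j => (w j : ℝ)) := by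
    ext j; simp
  unfold vec
  rw [h, Matrix.mulVec_sub, WithLp.toLp_sub]

theorem vec_add {n : ℕ} (A : Matrix (Fin n) (Fin n) ℝ) (v w : Fin n → ℤ) :
    vec A (v + w) = vec A v + vec A w := by
  have h : (fun j => ((v + w) j : ℝ)) = (fun j => (v j : ℝ)) + (fun j => (w j : ℝ)) := by
    ext j; simp
  unfold vec
  rw [h, Matrix.mulVec_add, WithLp.toLp_add]

theorem vec_neg {n : ℕ} (A : Matrix (Fin n) (Fin n) ℝ) (v : Fin n → ℤ) :
    vec A (-v) = -vec A v := by
  have h : (fun j => ((-v) j : ℝ)) = -(fun j => (v j : ℝ)) := by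
    ext j; simp
  unfold vec
  rw [h, Matrix.mulVec_neg, WithLp.toLp_neg]

theorem norm_vec {n : ℕ} (A : Matrix (Fin n) (Fin n) ℝ) (v : Fin n → ℤ) :
    ‖vec A v‖ ^ 2 = nsq A v := by
  rw [EuclideanSpace.norm_sq_eq]
  unfold nsq
  apply Finset.sum_congr rfl
  intro i _
  rw [Real.norm_eq_abs, sq_abs]
  rfl

theorem near_iff {E : Type*} [NormedAddCommGroup E] [InnerProductSpace ℝ E] (x v : E) :
    ‖x‖ < ‖x - v‖ ↔ 2 * inner ℝ x v < ‖v‖ ^ 2 := by
  rw [← sq_lt_sq₀ (norm_nonneg _) (norm_nonneg _), norm_sub_sq_real]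
  constructor <;> intro h <;> linarith

theorem measurableSet_cell {n : ℕ} (A : Matrix (Fin n) (Fin n) ℝ) : MeasurableSet (cell A) := by
  have : cell A = ⋂ w : Fin n → ℤ, ⋂ _ : w ≠ 0, {x | ‖x‖ < ‖x - vec A w‖} := by
    ext x; simp [cell]
  rw [this]
  refine MeasurableSet.iInter fun w => MeasurableSet.iInter fun _ => ?_
  exact measurableSet_lt (by fun_prop) (by fun_prop)

end Pool.Agent.V8H47.VC
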