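import Pool.Agent.V8H47.VC.Defs

/-! The volume of the open Voronoi cell is at most the covolume (for MP_ef2672_gt). -/

open Matrix MeasureTheory
open scoped Pointwise

namespace Pool.Agent.V8H47.VC

open Pool.Agent.H160R3.Herm Pool.Agent.TH220.HG

theorem cell_disjoint {n : ℕ} (A : Matrix (Fin n) (Fin n) ℝ) (x y : EuclideanSpace ℝ (Fin n))
    (hx : x ∈ cell A) (hy : y ∈ cell A) (w : Fin n → ℤ) (h : x - y = vec A w) : w = 0 := by
  by_contra hw
  have h1 := hx w hw
  have h2 := hy (-w) (neg_ne_zero.2 hw)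
  rw [← h] at h1
  rw [vec_neg, ← h] at h2
  have e1 : x - (x - y) = y := by abel
  have e2 : y - -(x - y) = x := by abel
  rw [e1] at h1
  rw [e2] at h2
  exact absurd (h1.trans h2) (lt_irrefl _)

theorem volume_cell_le {n : ℕ} (hn : 0 < n) {A : Matrix (Fin n) (Fin n) ℝ} (hA : A.det ≠ 0) :
    volume (cell A) ≤ ENNReal.ofReal |A.det| := by
  classical
  have hne : Nonempty (Fin n) := ⟨⟨0, hn⟩⟩
  set b := Pi.basisFun ℝ (Fin n) with hb
  set L : AddSubgroup (Fin n → ℝ) := (Submodule.span ℤ (Set.range b)).toAddSubgroup with hL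
  have fund : IsAddFundamentalDomain L (ZSpan.fundamentalDomain b) volume :=
    ZSpan.isAddFundamentalDomain' b volume
  have hvol : volume (ZSpan.fundamentalDomain b) = 1 := by
    rw [ZSpan.volume_fundamentalDomain]
    have : (Matrix.of b) = (1 : Matrix (Fin n) (Fin n) ℝ) := by
      ext i j
      simp [hb, Matrix.one_apply, Pi.single_apply, eq_comm]
    rw [this]
    simp
  have hcount : Countable L :=
    inferInstanceAs (Countable (Submodule.span ℤ (Set.range b)))
  set f : (Fin n → ℝ) →ₗ[ℝ] (Fin n → ℝ) := Matrix.toLin' A with hf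
  have hfdet : LinearMap.det f = A.det := by rw [hf, LinearMap.det_toLin']
  set s0 : Set (Fin n → ℝ) := (WithLp.toLp 2) ⁻¹' (cell A) with hs0
  have hs0m : MeasurableSet s0 :=
    (PiLp.volume_preserving_toLp (Fin n)).measurable (measurableSet_cell A)
  have hs0v : volume s0 = volume (cell A) :=
    (PiLp.volume_preserving_toLp (Fin n)).measure_preimage (measurableSet_cell A).nullMeasurableSet
  set s : Set (Fin n → ℝ) := f ⁻¹' s0 with hs
  have hsm : MeasurableSet s := by
    have : Continuous f := LinearMap.continuous_of_finiteDimensional f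
    exact this.measurable hs0m
  have hsv : volume s = ENNReal.ofReal |(A.det)⁻¹| * volume (cell A) := by
    rw [hs, Measure.addHaar_preimage_linearMap _ (by rw [hfdet]; exact hA), hfdet, hs0v]
  have hle : volume s ≤ 1 := by
    by_contra hlt
    push Not at hlt
    rw [← hvol] at hlt
    obtain ⟨x, y, hxy, hd⟩ :=
      exists_pair_mem_lattice_not_disjoint_vadd fund hsm.nullMeasurableSet hlt
    obtain ⟨z, ⟨u, hu, hz1⟩, ⟨v, hv, hz2⟩⟩ := Set.not_disjoint_iff.mp hd
    apply hxy
    have h1 : (x : Fin n → ℝ) + u = y + v := by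
      simp only [AddSubgroup.vadd_def, vadd_eq_add] at hz1 hz2
      rw [hz1, hz2]
    have h2 : u - v = ((y - x : L) : Fin n → ℝ) := by
      rw [AddSubgroup.coe_sub]
      have := congrArg (fun t => t - (x : Fin n → ℝ) - v) h1
      simp only [add_sub_cancel_left] at this
      rw [this]; abel
    have hxL : ((y - x : L) : Fin n → ℝ) ∈ Submodule.span ℤ (Set.range b) := (y - x).2
    rw [b.mem_span_iff_repr_mem ℤ] at hxL
    choose w hw using hxL
    have hxw : ((y - x : L) : Fin n → ℝ) = fun j => (w j : ℝ) := by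
      ext j
      have := hw j
      simp [hb] at this
      simp only [AddSubgroup.coe_sub, Pi.sub_apply]
      exact this.symm
    have h3 : (WithLp.toLp 2 (f u) : EuclideanSpace ℝ (Fin n)) - WithLp.toLp 2 (f v) = vec A w := by
      rw [← WithLp.toLp_sub, ← map_sub, h2, hxw]
      rfl
    have h4 := cell_disjoint A _ _ hu hv w h3
    have h5 : ((y - x : L) : Fin n → ℝ) = 0 := by
      rw [hxw, h4]; ext j; simp
    have h6 : y - x = 0 := Subtype.ext h5
    exact (sub_eq_zero.1 h6).symm
  have hd : 0 < |A.det| := abs_pos.2 hA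
  rw [hsv, abs_inv] at hle
  have h7 : volume (cell A) = ENNReal.ofReal |A.det| * (ENNReal.ofReal |A.det|⁻¹ * volume (cell A)) := by
    rw [← mul_assoc, ← ENNReal.ofReal_mul hd.le, mul_inv_cancel₀ hd.ne', ENNReal.ofReal_one, one_mul]
  rw [h7]
  calc ENNReal.ofReal |A.det| * (ENNReal.ofReal |A.det|⁻¹ * volume (cell A))
      ≤ ENNReal.ofReal |A.det| * 1 := by gcongr
    _ = _ := mul_one _

end Pool.Agent.V8H47.VC
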