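import Pool.Agent.V8H47.VC.Two

/-! The Voronoi cell of an orthogonal sum (for MP_ef2672_gt). -/

open Matrix

namespace Pool.Agent.V8H47.VC

open Pool.Agent.H160R3.Herm Pool.Agent.TH220.HG

section
variable {n m : ℕ}

/-- the first part of a vector -/
def lft (x : EuclideanSpace ℝ (Fin (n + m))) : EuclideanSpace ℝ (Fin n) :=
  WithLp.toLp 2 fun i => x (Fin.castAdd m i)

/-- the second part of a vector -/
def rgt (x : EuclideanSpace ℝ (Fin (n + m))) : EuclideanSpace ℝ (Fin m) :=
  WithLp.toLp 2 fun i => x (Fin.natAdd n i)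

theorem norm_split (x : EuclideanSpace ℝ (Fin (n + m))) :
    ‖x‖ ^ 2 = ‖lft x‖ ^ 2 + ‖rgt x‖ ^ 2 := by
  rw [EuclideanSpace.norm_sq_eq, EuclideanSpace.norm_sq_eq, EuclideanSpace.norm_sq_eq,
    Fin.sum_univ_add]
  rfl

theorem lft_sub (x y : EuclideanSpace ℝ (Fin (n + m))) : lft (x - y) = lft x - lft y := by
  ext i; simp [lft]

theorem rgt_sub (x y : EuclideanSpace ℝ (Fin (n + m))) : rgt (x - y) = rgt x - rgt y := by
  ext i; simp [rgt]

theorem lft_vec (A : Matrix (Fin n) (Fin n) ℝ) (B : Matrix (Fin m) (Fin m) ℝ)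
    (w : Fin (n + m) → ℤ) :
    lft (vec (bsum A B) w) = vec A fun j => w (Fin.castAdd m j) := by
  ext i
  simp only [lft, vec, Matrix.mulVec, dotProduct]
  rw [Fin.sum_univ_add]
  simp [bsum]

theorem rgt_vec (A : Matrix (Fin n) (Fin n) ℝ) (B : Matrix (Fin m) (Fin m) ℝ)
    (w : Fin (n + m) → ℤ) :
    rgt (vec (bsum A B) w) = vec B fun j => w (Fin.natAdd n j) := by
  ext i
  simp only [rgt, vec, Matrix.mulVec, dotProduct]
  rw [Fin.sum_univ_add]
  simp [bsum]

theorem vec_zero {k : ℕ} (A : Matrix (Fin k) (Fin k) ℝ) : vec A 0 = 0 := by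
  have := vec_sub A 0 0
  rwa [sub_zero, sub_self] at this

theorem cuts_bsum {A : Matrix (Fin n) (Fin n) ℝ} {B : Matrix (Fin m) (Fin m) ℝ}
    {S : Finset (Fin n → ℤ)} {T : Finset (Fin m → ℤ)} (hS : Cuts A S) (hT : Cuts B T) :
    ∃ U : Finset (Fin (n + m) → ℤ), Cuts (bsum A B) U ∧ U.card ≤ S.card + T.card := by
  classical
  refine ⟨S.image (fun v => Fin.append v 0) ∪ T.image (fun v => Fin.append 0 v), ⟨?_, ?_⟩, ?_⟩
  · intro h0
    rw [Finset.mem_union, Finset.mem_image, Finset.mem_image] at h0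
    rcases h0 with ⟨v, hv, h⟩ | ⟨v, hv, h⟩
    · apply hS.1
      have : v = 0 := by
        ext i
        have := congrFun h (Fin.castAdd m i)
        simpa using this
      rwa [this] at hv
    · apply hT.1
      have : v = 0 := by
        ext i
        have := congrFun h (Fin.natAdd n i)
        simpa using this
      rwa [this] at hv
  · intro x hx
    have h1 : lft x ∈ cell A := by
      apply hS.2
      intro v hv
      have h := hx _ (Finset.mem_union_left _ (Finset.mem_image_of_mem _ hv))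
      rw [← sq_lt_sq₀ (norm_nonneg _) (norm_nonneg _), norm_split, norm_split (x - _), lft_sub,
        rgt_sub, lft_vec, rgt_vec] at h
      have e1 : (fun j => Fin.append v (0 : Fin m → ℤ) (Fin.castAdd m j)) = v := by ext j; simp
      have e2 : (fun j => Fin.append v (0 : Fin m → ℤ) (Fin.natAdd n j)) = 0 := by ext j; simp
      rw [e1, e2, vec_zero, sub_zero] at h
      rw [← sq_lt_sq₀ (norm_nonneg _) (norm_nonneg _)]
      linarith
    have h2 : rgt x ∈ cell B := by
      apply hT.2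
      intro v hv
      have h := hx _ (Finset.mem_union_right _ (Finset.mem_image_of_mem _ hv))
      rw [← sq_lt_sq₀ (norm_nonneg _) (norm_nonneg _), norm_split, norm_split (x - _), lft_sub,
        rgt_sub, lft_vec, rgt_vec] at h
      have e1 : (fun j => Fin.append (0 : Fin n → ℤ) v (Fin.castAdd m j)) = 0 := by ext j; simp
      have e2 : (fun j => Fin.append (0 : Fin n → ℤ) v (Fin.natAdd n j)) = v := by ext j; simp
      rw [e1, e2, vec_zero, sub_zero] at h
      rw [← sq_lt_sq₀ (norm_nonneg _) (norm_nonneg _)]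
      linarith
    intro w hw
    rw [← sq_lt_sq₀ (norm_nonneg _) (norm_nonneg _), norm_split, norm_split (x - _), lft_sub,
        rgt_sub, lft_vec, rgt_vec]
    set w1 : Fin n → ℤ := fun j => w (Fin.castAdd m j) with hw1
    set w2 : Fin m → ℤ := fun j => w (Fin.natAdd n j) with hw2
    have k1 : ‖lft x‖ ^ 2 ≤ ‖lft x - vec A w1‖ ^ 2 := by
      by_cases h : w1 = 0
      · rw [h, vec_zero, sub_zero]
      · have := h1 w1 h
        rw [← sq_lt_sq₀ (norm_nonneg _) (norm_nonneg _)] at this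
        exact this.le
    have k2 : ‖rgt x‖ ^ 2 ≤ ‖rgt x - vec B w2‖ ^ 2 := by
      by_cases h : w2 = 0
      · rw [h, vec_zero, sub_zero]
      · have := h2 w2 h
        rw [← sq_lt_sq₀ (norm_nonneg _) (norm_nonneg _)] at this
        exact this.le
    by_cases h : w1 = 0
    · have h' : w2 ≠ 0 := by
        intro h'
        apply hw
        ext j
        refine Fin.addCases (fun i => ?_) (fun i => ?_) j
        · exact congrFun h i
        · exact congrFun h' i
      have := h2 w2 h'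
      rw [← sq_lt_sq₀ (norm_nonneg _) (norm_nonneg _)] at this
      linarith
    · have := h1 w1 h
      rw [← sq_lt_sq₀ (norm_nonneg _) (norm_nonneg _)] at this
      linarith
  · refine (Finset.card_union_le _ _).trans ?_
    exact add_le_add Finset.card_image_le Finset.card_image_le

theorem faces_bsum {A : Matrix (Fin n) (Fin n) ℝ} {B : Matrix (Fin m) (Fin m) ℝ}
    (hA : A.det ≠ 0) (hB : B.det ≠ 0) : faces (bsum A B) ≤ faces A + faces B := by
  obtain ⟨S, hS, h1⟩ := faces_spec hA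
  obtain ⟨T, hT, h2⟩ := faces_spec hB
  obtain ⟨U, hU, h3⟩ := cuts_bsum hS hT
  rw [← h1, ← h2]
  exact (faces_le hU).trans h3

end

/-- the minimum of an orthogonal sum -/
theorem min_bsum {n m : ℕ} (hn : 0 < n) (A : Matrix (Fin n) (Fin n) ℝ)
    (B : Matrix (Fin m) (Fin m) ℝ) {c : ℝ} (hc : 0 ≤ c) (hA : c ≤ minSq A)
    (hB : ∀ w : Fin m → ℤ, w ≠ 0 → c ≤ ∑ i, (Matrix.mulVec B (fun j => (w j : ℝ))) i ^ 2) :
    c ≤ minSq (bsum A B) := by
  apply le_minSq (by omega)
  intro w hw
  rw [sum_bsum A B fun j => (w j : ℝ)]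
  by_cases h : (fun j => w (Fin.castAdd m j)) = 0
  · have h' : (fun j => w (Fin.natAdd n j)) ≠ 0 := by
      intro h'
      apply hw
      ext j
      refine Fin.addCases (fun i => ?_) (fun i => ?_) j
      · exact congrFun h i
      · exact congrFun h' i
    have h1 := hB _ h'
    have h2 : 0 ≤ ∑ i, (Matrix.mulVec A (fun j => (w (Fin.castAdd m j) : ℝ))) i ^ 2 := by positivity
    linarith
  · have h1 := minSq_le A _ h
    have h2 : 0 ≤ ∑ i, (Matrix.mulVec B (fun j => (w (Fin.natAdd n j) : ℝ))) i ^ 2 := by positivity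
    linarith

/-- the orthogonal sum of `m + 1` copies of a lattice -/
theorem exists_copies {k : ℕ} (hk : 0 < k) {A : Matrix (Fin k) (Fin k) ℝ} (hA : A.det ≠ 0)
    (m : ℕ) : ∃ B : Matrix (Fin ((m + 1) * k)) (Fin ((m + 1) * k)) ℝ, |B.det| = |A.det| ^ (m + 1) ∧
      minSq A ≤ minSq B ∧ faces B ≤ (m + 1) * faces A := by
  induction m with
  | zero =>
    rw [Nat.zero_add, Nat.one_mul]
    exact ⟨A, by simp, le_refl _, by simp⟩
  | succ m ih =>
    obtain ⟨B, h1, h2, h3⟩ := ih
    have e : (m + 1 + 1) * k = (m + 1) * k + k := by ring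
    rw [e]
    have hB : B.det ≠ 0 := by
      intro h
      rw [h, abs_zero] at h1
      exact (pow_ne_zero _ (abs_ne_zero.2 hA)) h1.symm
    refine ⟨bsum B A, ?_, ?_, ?_⟩
    · rw [det_bsum, abs_mul, h1, ← pow_succ]
    · exact min_bsum (by positivity) B A (minSq_nonneg A) h2 fun w hw => minSq_le A w hw
    · refine (faces_bsum hB hA).trans ?_
      calc faces B + faces A ≤ (m + 1) * faces A + faces A := by omega
        _ = _ := by ring

theorem gam_copies {k : ℕ} (hk : 0 < k) {A : Matrix (Fin k) (Fin k) ℝ} (hA : A.det ≠ 0)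
    {m : ℕ} (hm : 0 < m) : ∃ B : Matrix (Fin (m * k)) (Fin (m * k)) ℝ, B.det ≠ 0 ∧
      gam A ≤ gam B ∧ faces B ≤ m * faces A := by
  obtain ⟨m, rfl⟩ : ∃ m', m = m' + 1 := ⟨m - 1, by omega⟩
  obtain ⟨B, h1, h2, h3⟩ := exists_copies hk hA m
  have hd : 0 < |A.det| := abs_pos.2 hA
  refine ⟨B, ?_, ?_, h3⟩
  · intro h
    rw [h, abs_zero] at h1
    exact (pow_ne_zero _ (abs_ne_zero.2 hA)) h1.symm
  · unfold gam
    have e : |B.det| ^ ((2 : ℝ) / (((m + 1) * k : ℕ) : ℝ)) = |A.det| ^ ((2 : ℝ) / (k : ℝ)) := by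
      rw [h1, ← Real.rpow_natCast, ← Real.rpow_mul hd.le]
      congr 1
      have : (k : ℝ) ≠ 0 := by positivity
      push_cast
      field_simp
    rw [e]
    gcongr

end Pool.Agent.V8H47.VC
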