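import Pool.Agent.V8H47.VC.Cap

/-! At most `2 ^ (n + 1)` half-spaces cut out the Voronoi cell (Voronoi; for MP_ef2672_gt). -/

open Matrix

namespace Pool.Agent.V8H47.VC

open Pool.Agent.H160R3.Herm Pool.Agent.TH220.HG

theorem exists_nsq_min {n : ℕ} {A : Matrix (Fin n) (Fin n) ℝ} (hA : A.det ≠ 0)
    (P : (Fin n → ℤ) → Prop) (h : ∃ w, P w) : ∃ w, P w ∧ ∀ z, P z → nsq A w ≤ nsq A z := by
  classical
  obtain ⟨e, he⟩ := h
  have hfin : {w : Fin n → ℤ | P w ∧ nsq A w < nsq A e + 1}.Finite :=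
    (finite_lt hA (nsq A e + 1)).subset fun w hw => hw.2
  obtain ⟨w, hw, hmin⟩ := hfin.toFinset.exists_min_image (nsq A)
    ⟨e, by rw [Set.Finite.mem_toFinset]; exact ⟨he, by linarith⟩⟩
  rw [Set.Finite.mem_toFinset] at hw
  refine ⟨w, hw.1, fun z hz => ?_⟩
  by_cases h : nsq A z < nsq A e + 1
  · exact hmin z (by rw [Set.Finite.mem_toFinset]; exact ⟨hz, h⟩)
  · push Not at h
    exact hw.2.le.trans h

/-- reduction modulo two -/
def cls {n : ℕ} (w : Fin n → ℤ) : Fin n → ZMod 2 := fun j => (w j : ZMod 2)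

theorem cls_neg {n : ℕ} (w : Fin n → ℤ) : cls (-w) = cls w := by
  ext j
  simp only [cls, Pi.neg_apply, Int.cast_neg]
  rw [ZMod.neg_eq_self_mod_two]

theorem exists_half {n : ℕ} {w s : Fin n → ℤ} (h : cls w = cls s) :
    ∃ a b : Fin n → ℤ, w = a + b ∧ s = a - b := by
  have h1 : ∀ j, ∃ t : ℤ, w j = s j + 2 * t := by
    intro j
    have := congrFun h j
    simp only [cls] at this
    rw [ZMod.intCast_eq_intCast_iff_dvd_sub] at this
    obtain ⟨t, ht⟩ := this
    exact ⟨-t, by push_cast at ht; linarith⟩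
  choose t ht using h1
  refine ⟨s + t, t, ?_, ?_⟩
  · ext j; simp only [Pi.add_apply]; rw [ht j]; ring
  · ext j; simp

theorem para {n : ℕ} (A : Matrix (Fin n) (Fin n) ℝ) (a b : Fin n → ℤ) :
    nsq A (a + b) + nsq A (a - b) = 2 * (nsq A a + nsq A b) := by
  rw [← norm_vec, ← norm_vec, ← norm_vec, ← norm_vec, vec_add, vec_sub]
  have := parallelogram_law_with_norm ℝ (vec A a) (vec A b)
  nlinarith

theorem exists_cuts {n : ℕ} {A : Matrix (Fin n) (Fin n) ℝ} (hA : A.det ≠ 0) :
    ∃ S : Finset (Fin n → ℤ), Cuts A S ∧ S.card ≤ 2 ^ (n + 1) := by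
  classical
  have hex : ∀ c : Fin n → ZMod 2, ∃ w, cls w = c ∧ ∀ z, cls z = c → nsq A w ≤ nsq A z := by
    intro c
    apply exists_nsq_min hA
    refine ⟨fun j => ((c j).val : ℤ), ?_⟩
    ext j
    simp [cls]
  choose m hm1 hm2 using hex
  set T : Finset (Fin n → ZMod 2) := Finset.univ.erase 0 with hT
  refine ⟨T.image m ∪ T.image (fun c => -m c), ⟨?_, ?_⟩, ?_⟩
  · intro h0
    rw [Finset.mem_union, Finset.mem_image, Finset.mem_image] at h0
    have hz : cls (0 : Fin n → ℤ) = 0 := by ext j; simp [cls]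
    rcases h0 with ⟨c, hc, h⟩ | ⟨c, hc, h⟩
    · have := hm1 c
      rw [h, hz] at this
      exact (Finset.mem_erase.1 hc).1 this.symm
    · have := hm1 c
      rw [neg_eq_zero.1 h, hz] at this
      exact (Finset.mem_erase.1 hc).1 this.symm
  · intro x hx
    by_contra hcon
    have hbad : ∃ w, w ≠ 0 ∧ ¬ ‖x‖ < ‖x - vec A w‖ := by
      by_contra h
      push Not at h
      exact hcon fun w hw => h w hw
    obtain ⟨w, ⟨hw0, hw⟩, hmin⟩ := exists_nsq_min hA _ hbad
    obtain ⟨s, hs1, hs2, hs3, hs4⟩ : ∃ s, cls w = cls s ∧ nsq A s ≤ nsq A w ∧ s ≠ w ∧ s ≠ -w := by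
      by_cases hc : cls w = 0
      · refine ⟨0, ?_, ?_, fun h => hw0 h.symm, fun h => hw0 (neg_eq_zero.1 h.symm)⟩
        · rw [hc]; ext j; simp [cls]
        · have : nsq A (0 : Fin n → ℤ) = 0 := by
            rw [← norm_vec]
            have : vec A 0 = 0 := by
              have := vec_sub A 0 0
              rwa [sub_zero, sub_self] at this
            rw [this]; simp
          rw [this]; exact nsq_nonneg A w
      · have hmem : cls w ∈ T := Finset.mem_erase.2 ⟨hc, Finset.mem_univ _⟩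
        refine ⟨m (cls w), (hm1 _).symm, hm2 _ w rfl, ?_, ?_⟩
        · intro h
          apply hw
          rw [← h]
          exact hx _ (Finset.mem_union_left _ (Finset.mem_image_of_mem m hmem))
        · intro h
          apply hw
          have : w = -m (cls w) := by rw [h, neg_neg]
          rw [this]
          exact hx _ (Finset.mem_union_right _ (Finset.mem_image.2 ⟨_, hmem, rfl⟩))
    obtain ⟨a, b, hab, hab'⟩ := exists_half hs1
    have ha0 : a ≠ 0 := by
      rintro rfl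
      apply hs4; rw [hab', hab]; simp
    have hb0 : b ≠ 0 := by
      rintro rfl
      apply hs3; rw [hab', hab]; simp
    have hp := para A a b
    rw [← hab, ← hab'] at hp
    have ha1 := nsq_pos hA ha0
    have hb1 := nsq_pos hA hb0
    have hna : ‖x‖ < ‖x - vec A a‖ := by
      by_contra h
      have := hmin a ⟨ha0, h⟩
      linarith
    have hnb : ‖x‖ < ‖x - vec A b‖ := by
      by_contra h
      have := hmin b ⟨hb0, h⟩
      linarith
    apply hw
    rw [near_iff] at hna hnb ⊢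
    rw [norm_vec] at hna hnb ⊢
    rw [hab, vec_add, inner_add_right, ← hab]
    linarith
  · refine (Finset.card_union_le _ _).trans ?_
    have h1 : T.card ≤ 2 ^ n := by
      refine (Finset.card_le_univ _).trans ?_
      simp [ZMod.card]
    have h2 : (T.image m).card ≤ 2 ^ n := Finset.card_image_le.trans h1
    have h3 : (T.image (fun c => -m c)).card ≤ 2 ^ n := Finset.card_image_le.trans h1
    rw [pow_succ]; omega

theorem faces_spec {n : ℕ} {A : Matrix (Fin n) (Fin n) ℝ} (hA : A.det ≠ 0) :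
    ∃ S : Finset (Fin n → ℤ), Cuts A S ∧ S.card = faces A := by
  obtain ⟨S, hS, _⟩ := exists_cuts hA
  exact Nat.sInf_mem (s := {k | ∃ S : Finset (Fin n → ℤ), Cuts A S ∧ S.card = k}) ⟨S.card, S, hS, rfl⟩

theorem faces_le {n : ℕ} {A : Matrix (Fin n) (Fin n) ℝ} {S : Finset (Fin n → ℤ)} (hS : Cuts A S) :
    faces A ≤ S.card :=
  Nat.sInf_le ⟨S, hS, rfl⟩

theorem faces_le_two_pow {n : ℕ} {A : Matrix (Fin n) (Fin n) ℝ} (hA : A.det ≠ 0) :
    faces A ≤ 2 ^ (n + 1) := by
  obtain ⟨S, hS, h⟩ := exists_cuts hA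
  exact (faces_le hS).trans h

end Pool.Agent.V8H47.VC
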